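import Pool.Agent.Weih.Embed

/-!
# The Weihrauch degrees and the power set of the reals are bi-embeddable

The definitions are in `Pool/Agent/Weih/Defs.lean` (`Problem`, `App`, `Red`, `WLe`) and in
`Pool/Agent/Weih/Order.lean` (`Degree`, the partial order of the equivalence classes of problems).
-/

set_option autoImplicit false

namespace Pool.Agent.Results.MP_d0967d_lc.BiEmbedding

open Pool.Agent.Weih Cardinal

/-- The partial orders of the Weihrauch degrees and of the sets of reals embed into each other.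
Hence, for every cardinal `κ`, the Weihrauch degrees have a chain of size `κ` if and only if the
sets of reals have one. -/
theorem result :
    Nonempty (Degree ↪o Set ℝ) ∧ Nonempty (Set ℝ ↪o Degree) ∧
      ∀ κ : Cardinal.{0}, (∃ C : Set Degree, IsChain (· ≤ ·) C ∧ #C = κ) ↔
        ∃ C : Set (Set ℝ), IsChain (· ⊆ ·) C ∧ #C = κ := by
  obtain ⟨F⟩ := exists_degree_embedding
  obtain ⟨G⟩ := exists_set_embedding
  refine ⟨⟨F⟩, ⟨G⟩, fun κ => ⟨?_, ?_⟩⟩
  · rintro ⟨C, hC, rfl⟩
    refine ⟨F '' C, ?_, Cardinal.mk_image_eq F.injective⟩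
    rintro _ ⟨a, ha, rfl⟩ _ ⟨b, hb, rfl⟩ hab
    have hne : a ≠ b := fun h => hab (by rw [h])
    exact (hC ha hb hne).imp F.monotone.imp F.monotone.imp
  · rintro ⟨C, hC, rfl⟩
    refine ⟨G '' C, ?_, Cardinal.mk_image_eq G.injective⟩
    rintro _ ⟨a, ha, rfl⟩ _ ⟨b, hb, rfl⟩ hab
    have hne : a ≠ b := fun h => hab (by rw [h])
    exact (hC ha hb hne).imp G.monotone.imp G.monotone.imp

end Pool.Agent.Results.MP_d0967d_lc.BiEmbedding
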