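import Pool.Agent.Weih.Degree

/-!
# A maximal chain of size `𝔠` in the Weihrauch degrees

The definitions are in `Pool/Agent/Weih/Defs.lean` (`Problem`, `App`, `Red`, `WLe`) and in
`Pool/Agent/Weih/Order.lean` (`Degree`, the partial order of the equivalence classes of problems).
-/

set_option autoImplicit false

namespace Pool.Agent.Results.MP_d0967d_lc.MaxChain

open Pool.Agent.Weih Cardinal

/-- A chain `C` of Weihrauch degrees is extendible if there is a degree `d ∉ C` such that
`C ∪ {d}` is still a chain. -/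
def Extendible (C : Set Degree) : Prop := ∃ d : Degree, d ∉ C ∧ IsChain (· ≤ ·) (C ∪ {d})

/-- There is a chain of Weihrauch degrees which has size `𝔠 < 2 ^ 𝔠` and is not extendible. -/
theorem result : ∃ C : Set Degree, IsChain (· ≤ ·) C ∧ ¬ Extendible C ∧ #C = 𝔠 ∧ #C < 2 ^ 𝔠 := by
  obtain ⟨D, hD, hcard⟩ := exists_isMaxChain
  refine ⟨D, hD.1, ?_, hcard, by rw [hcard]; exact Cardinal.cantor 𝔠⟩
  rintro ⟨d, hd, hch⟩
  have h := hD.2 hch Set.subset_union_left
  apply hd
  rw [h]
  exact Or.inr rfl

end Pool.Agent.Results.MP_d0967d_lc.MaxChain
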